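import Mathlib.Algebra.Polynomial.Basic
import Mathlib.RingTheory.PowerSeries.Trunc
import Pool.Agent.Q162.ChromH.Main

/-!
# Partial-sum inequalities for the chromatic h-polynomial

For every finite simple graph `G` on `d ≥ 1` vertices the coefficients of
`h_G(z) = (1 - z)^(d+1) ∑ₙ χ_G(n) zⁿ` satisfy
`h_d + ⋯ + h_{d-i+1} ≥ h_0 + ⋯ + h_i` for all `i ≤ d`.

The proof: deletion-contraction gives `h_G(j) = h_{G-e}(j) - h_{G/e}(j) + h_{G/e}(j-1)`, so the
partial sums `∑_{j ≤ i} (h_G(d+1-j) - h_G(j))` change by `h_{G/e}(d-i) + h_{G/e}(i) ≥ 0` when an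
edge is added, and they vanish for the edgeless graph by the symmetry of the Eulerian numbers.
-/

namespace Pool.Agent.Results.MP_f4be1e_co.PartialSums

open Finset

/-- `χ_G(n)`: the number of maps `φ` from the vertices to `n` colours with `φ u ≠ φ v` for every
edge `uv`. -/
noncomputable def chromatic {V : Type*} (G : SimpleGraph V) (n : ℕ) : ℕ :=
  Nat.card {φ : V → Fin n // ∀ u v, G.Adj u v → φ u ≠ φ v}

/-- `h` is the chromatic h-polynomial of `G`: with `d` the number of vertices,
`(1 - z)^(d+1) * ∑ₙ χ_G(n) zⁿ = h(z)` as formal power series. -/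
def IsHPolynomial {V : Type*} [Fintype V] (G : SimpleGraph V) (h : Polynomial ℤ) : Prop :=
  (1 - PowerSeries.X : PowerSeries ℤ) ^ (Fintype.card V + 1) *
    PowerSeries.mk (fun n => (chromatic G n : ℤ)) = (h : PowerSeries ℤ)

/-- Every finite simple graph `G` on `d ≥ 1` vertices has exactly one h-polynomial, it has degree
at most `d`, and `h_d + h_{d-1} + ⋯ + h_{d-i+1} - (h_0 + h_1 + ⋯ + h_i) ≥ 0` for every `i ≤ d`
(in particular for `1 ≤ i ≤ ⌊d/2⌋`). -/
theorem result {V : Type*} [Fintype V] (G : SimpleGraph V) (hV : 1 ≤ Fintype.card V) :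
    (∃! h : Polynomial ℤ, IsHPolynomial G h) ∧
    ∀ h : Polynomial ℤ, IsHPolynomial G h →
      h.natDegree ≤ Fintype.card V ∧
      ∀ i : ℕ, i ≤ Fintype.card V →
        0 ≤ ∑ j ∈ range i, h.coeff (Fintype.card V - j) - ∑ j ∈ range (i + 1), h.coeff j := by
  set d := Fintype.card V with hd
  set F : PowerSeries ℤ := (1 - PowerSeries.X : PowerSeries ℤ) ^ (d + 1) *
    PowerSeries.mk (fun n => (chromatic G n : ℤ)) with hF
  have hcoef : ∀ i, PowerSeries.coeff i F =
      Q162ChromH.num d (fun n => (Q162ChromH.chi G n : ℤ)) i := fun i => rfl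
  have htr : ((PowerSeries.trunc (d + 1) F : Polynomial ℤ) : PowerSeries ℤ) = F := by
    ext i
    rw [Polynomial.coeff_coe, PowerSeries.coeff_trunc]
    split_ifs with hi
    · rfl
    · rw [hcoef, Q162ChromH.num_chi_eq_zero hd.symm hV G i (by omega)]
  have huniq : ∀ h : Polynomial ℤ, IsHPolynomial G h → h = PowerSeries.trunc (d + 1) F := by
    intro h h1
    have h2 : (h : PowerSeries ℤ) = ((PowerSeries.trunc (d + 1) F : Polynomial ℤ) :
        PowerSeries ℤ) := by
      rw [htr]
      exact h1.symm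
    exact_mod_cast h2
  refine ⟨⟨PowerSeries.trunc (d + 1) F, htr.symm, huniq⟩, ?_⟩
  intro h h1
  rw [huniq h h1]
  refine ⟨Nat.lt_succ_iff.mp (PowerSeries.natDegree_trunc_lt F d), ?_⟩
  intro i hi
  have h := Q162ChromH.main G d i hd.symm hV hi
  have e : ∀ j, (PowerSeries.trunc (d + 1) F).coeff j =
      Q162ChromH.num d (fun n => (Q162ChromH.chi G n : ℤ)) j := by
    intro j
    rw [← hcoef, ← Polynomial.coeff_coe, htr]
  simp only [e]
  exact h

end Pool.Agent.Results.MP_f4be1e_co.PartialSums
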